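import Pool.Agent.H35.DM.Rad

/-!
# Demailly's inequality for all radical homogeneous ideals

Let `K` be an algebraically closed field (of any characteristic) and `I` a nonzero radical
homogeneous ideal of `K[x_0, …, x_N]`, different from the irrelevant ideal, all of whose minimal
primes have height at most `h`. Then
`lim α(I^(r)) / r ≥ (α(I^(m)) + h - 1) / (m + h - 1)` for all `m ≥ 1`.
Finite sets of points are the case `h = N`, Demailly's conjecture. More generally the inequality
holds for intersections of symbolic powers of homogeneous prime ideals of height at most `h` with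
arbitrary, not necessarily proportional exponents.
-/

set_option autoImplicit false

namespace Pool.Agent.Results.MP_794b84_ag.BigHeight

open MvPolynomial Filter Topology

universe u

/-- The ideal contains the homogeneous components of its elements. -/
def IsHomogeneousIdeal {K : Type u} [Field K] {N : ℕ}
    (J : Ideal (MvPolynomial (Fin (N + 1)) K)) : Prop :=
  ∀ F ∈ J, ∀ d, homogeneousComponent d F ∈ J

/-- The symbolic power `I^(m)`, the intersection of the ideals `I ^ m R_P ∩ R` over the minimal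
primes `P` of `I`: the polynomials `F` such that for every minimal prime `P` of `I` there is a
`t ∉ P` with `t F ∈ I ^ m` (for a prime `P` these `F` form an ideal). -/
noncomputable def symbolicPower {K : Type u} [Field K] {N : ℕ}
    (I : Ideal (MvPolynomial (Fin (N + 1)) K)) (m : ℕ) : Ideal (MvPolynomial (Fin (N + 1)) K) :=
  ⨅ P ∈ I.minimalPrimes, Ideal.span {F | ∃ t, t ∉ P ∧ t * F ∈ I ^ m}

/-- `α(J)`: the least degree of a nonzero element of `J`. -/
noncomputable def alpha {K : Type u} [Field K] {N : ℕ}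
    (J : Ideal (MvPolynomial (Fin (N + 1)) K)) : ℕ :=
  sInf {d | ∃ F ∈ J, F ≠ 0 ∧ F.totalDegree = d}

/-- `P` is the homogeneous prime ideal of an irreducible subvariety, different from the whole
space, of codimension at most `h` of the projective space of dimension `N`. -/
structure IsVarietyIdeal {K : Type u} [Field K] {N : ℕ} (h : ℕ)
    (P : Ideal (MvPolynomial (Fin (N + 1)) K)) : Prop where
  prime : P.IsPrime
  homogeneous : IsHomogeneousIdeal P
  ne_bot : P ≠ ⊥
  relevant : ∃ i, (X i : MvPolynomial (Fin (N + 1)) K) ∉ P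
  height_le : P.height ≤ h

/-- The intersection of the symbolic powers `P^(τ(P))`, `P ∈ S`. -/
noncomputable def multi {K : Type u} [Field K] {N : ℕ}
    (S : Finset (Ideal (MvPolynomial (Fin (N + 1)) K)))
    (τ : Ideal (MvPolynomial (Fin (N + 1)) K) → ℕ) : Ideal (MvPolynomial (Fin (N + 1)) K) :=
  ⨅ P ∈ S, symbolicPower P (τ P)

/-- The homogeneous prime ideal of a point: the ideal generated by the forms which vanish at it. -/
noncomputable def pointIdeal {K : Type u} [Field K] {N : ℕ}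
    (p : Projectivization K (Fin (N + 1) → K)) : Ideal (MvPolynomial (Fin (N + 1)) K) :=
  Ideal.span {F | (∃ d : ℕ, F.IsHomogeneous d) ∧ eval p.rep F = 0}

theorem symbolicPower_prime {K : Type u} [Field K] {N : ℕ}
    (P : Ideal (MvPolynomial (Fin (N + 1)) K)) [hP : P.IsPrime] (m : ℕ) :
    symbolicPower P m = Pool.Agent.H35.DM.symb P m := by
  unfold symbolicPower Pool.Agent.H35.DM.symb
  rw [Ideal.minimalPrimes_eq_subsingleton_self]
  simp

/-- the other components do not matter near `P` -/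
theorem exists_factor {K : Type u} [Field K] {N : ℕ} {I : Ideal (MvPolynomial (Fin (N + 1)) K)}
    (hrad : I.IsRadical) {P : Ideal (MvPolynomial (Fin (N + 1)) K)} (hP : P ∈ I.minimalPrimes) :
    ∃ u, u ∉ P ∧ ∀ x ∈ P, u * x ∈ I := by
  classical
  have hfin := Ideal.finite_minimalPrimes_of_isNoetherianRing _ I
  have hPp : P.IsPrime := hP.1.1
  have h1 : ∀ Q : Ideal (MvPolynomial (Fin (N + 1)) K), ∃ y : MvPolynomial (Fin (N + 1)) K,
      Q ∈ I.minimalPrimes → Q ≠ P → y ∈ Q ∧ y ∉ P := by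
    intro Q
    by_cases hQ : Q ∈ I.minimalPrimes ∧ Q ≠ P
    · have h2 : ¬ Q ≤ P := fun h => hQ.2 (le_antisymm h (hP.2 hQ.1.1 h))
      obtain ⟨y, hy, hyP⟩ := SetLike.not_le_iff_exists.1 h2
      exact ⟨y, fun _ _ => ⟨hy, hyP⟩⟩
    · exact ⟨0, fun h2 h3 => absurd ⟨h2, h3⟩ hQ⟩
  choose y hy using h1
  refine ⟨∏ Q ∈ hfin.toFinset.erase P, y Q, ?_, fun x hx => ?_⟩
  · intro hmem
    rw [Ideal.IsPrime.prod_mem_iff] at hmem
    obtain ⟨Q, hQ, hQ'⟩ := hmem
    rw [Finset.mem_erase, Set.Finite.mem_toFinset] at hQ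
    exact (hy Q hQ.2 hQ.1).2 hQ'
  · have h1 : sInf I.minimalPrimes = I := by
      rw [Ideal.sInf_minimalPrimes, hrad.radical]
    refine (le_of_eq h1 : sInf I.minimalPrimes ≤ I) ?_
    rw [Ideal.mem_sInf]
    intro Q hQ
    by_cases hQP : Q = P
    · rw [hQP]
      exact Ideal.mul_mem_left _ _ hx
    · have hQ' : Q ∈ hfin.toFinset.erase P := by
        rw [Finset.mem_erase, Set.Finite.mem_toFinset]
        exact ⟨hQP, hQ⟩
      rw [← Finset.mul_prod_erase _ _ hQ', mul_assoc]
      exact Ideal.mul_mem_right _ _ (hy Q hQ hQP).1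

theorem symbolicPower_radical {K : Type u} [Field K] {N : ℕ}
    {I : Ideal (MvPolynomial (Fin (N + 1)) K)} (hrad : I.IsRadical) (m : ℕ) :
    symbolicPower I m = ⨅ P ∈ I.minimalPrimes, Pool.Agent.H35.DM.symb P m := by
  unfold symbolicPower Pool.Agent.H35.DM.symb
  refine iInf_congr fun P => iInf_congr fun hP => ?_
  congr 1
  ext F
  obtain ⟨u, hu, hu'⟩ := exists_factor hrad hP
  have hPp : P.IsPrime := hP.1.1
  constructor
  · rintro ⟨t, ht, htF⟩
    exact ⟨t, ht, Ideal.pow_right_mono hP.1.2 m htF⟩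
  · rintro ⟨t, ht, htF⟩
    refine ⟨u ^ m * t, fun h => ?_, ?_⟩
    · rcases hPp.mem_or_mem h with h | h
      · exact hu (hPp.mem_of_pow_mem _ h)
      · exact ht h
    · have h1 : Ideal.span {u} * P ≤ I := by
        rw [Ideal.span_singleton_mul_le_iff]
        exact hu'
      have h2 : u ^ m * (t * F) ∈ (Ideal.span {u} * P) ^ m := by
        rw [mul_pow]
        exact Ideal.mul_mem_mul (Ideal.pow_mem_pow (Ideal.mem_span_singleton_self u) m) htF
      rw [mul_assoc]
      exact Ideal.pow_right_mono h1 m h2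

/-- **Demailly's inequality for all radical homogeneous ideals.** -/
theorem result (K : Type u) [Field K] [IsAlgClosed K] (N : ℕ) (hN : 1 ≤ N) :
    -- radical ideals
    (∀ (h : ℕ) (I : Ideal (MvPolynomial (Fin (N + 1)) K)), 1 ≤ h → I.IsRadical →
      IsHomogeneousIdeal I → I ≠ ⊥ → (∃ i, (X i : MvPolynomial (Fin (N + 1)) K) ∉ I) →
      (∀ P ∈ I.minimalPrimes, P.height ≤ h) →
      ∃ c : ℝ, Tendsto (fun r : ℕ => (alpha (symbolicPower I r) : ℝ) / r) atTop (𝓝 c) ∧
        (∀ r : ℕ, 1 ≤ r → c ≤ (alpha (symbolicPower I r) : ℝ) / r) ∧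
        ∀ m : ℕ, 1 ≤ m → ((alpha (symbolicPower I m) : ℝ) + h - 1) / ((m : ℝ) + h - 1) ≤ c) ∧
    -- arbitrary multiplicities
    (∀ (h : ℕ) (S : Finset (Ideal (MvPolynomial (Fin (N + 1)) K)))
      (τ : Ideal (MvPolynomial (Fin (N + 1)) K) → ℕ), 1 ≤ h → S.Nonempty →
      (∀ P ∈ S, IsVarietyIdeal h P ∧ 1 ≤ τ P) →
      (∀ r : ℕ, r * (alpha (multi S τ) + h - 1) ≤
        alpha (multi S (fun P => r * (τ P + h - 1)))) ∧
      ∃ c : ℝ, Tendsto (fun r : ℕ => (alpha (multi S (fun P => r * τ P)) : ℝ) / r) atTop (𝓝 c) ∧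
        (∀ r : ℕ, 1 ≤ r → c ≤ (alpha (multi S (fun P => r * τ P)) : ℝ) / r) ∧
        ∀ m : ℕ, 1 ≤ m →
          ((alpha (multi S (fun P => m * τ P)) : ℝ) + h - 1) / ((m : ℝ) + h - 1) ≤ c) ∧
    -- for `h = N` the condition on the heights holds always
    (∀ P : Ideal (MvPolynomial (Fin (N + 1)) K), P.IsPrime → IsHomogeneousIdeal P →
      (∃ i, (X i : MvPolynomial (Fin (N + 1)) K) ∉ P) → P.height ≤ N) ∧
    -- finite sets of points
    (∀ Z : Finset (Projectivization K (Fin (N + 1) → K)), Z.Nonempty →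
      ∃ c : ℝ, Tendsto (fun r : ℕ => (alpha (⨅ p ∈ Z, pointIdeal p ^ r) : ℝ) / r) atTop (𝓝 c) ∧
        (∀ r : ℕ, 1 ≤ r → c ≤ (alpha (⨅ p ∈ Z, pointIdeal p ^ r) : ℝ) / r) ∧
        ∀ m : ℕ, 1 ≤ m →
          ((alpha (⨅ p ∈ Z, pointIdeal p ^ m) : ℝ) + N - 1) / ((m : ℝ) + N - 1) ≤ c) := by
  classical
  have hinf : Infinite K := IsAlgClosed.instInfinite
  -- sets of primes
  have hfam : ∀ (h : ℕ) (P : Ideal (MvPolynomial (Fin (N + 1)) K)), IsVarietyIdeal h P →
      Pool.Agent.H35.DM.Fam h (symbolicPower P) := by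
    intro h P hP
    have := hP.prime
    have h1 : symbolicPower P = Pool.Agent.H35.DM.symb P := by
      funext m
      exact symbolicPower_prime P m
    rw [h1]
    exact Pool.Agent.H35.DM.symb_fam P h hP.height_le hP.ne_bot hP.relevant hP.homogeneous
  have hset : ∀ (h : ℕ) (S : Finset (Ideal (MvPolynomial (Fin (N + 1)) K)))
      (τ : Ideal (MvPolynomial (Fin (N + 1)) K) → ℕ), 1 ≤ h → S.Nonempty →
      (∀ P ∈ S, IsVarietyIdeal h P ∧ 1 ≤ τ P) →
      (∀ r : ℕ, r * (alpha (multi S τ) + h - 1) ≤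
        alpha (multi S (fun P => r * (τ P + h - 1)))) ∧
      ∃ c : ℝ, Tendsto (fun r : ℕ => (alpha (multi S (fun P => r * τ P)) : ℝ) / r) atTop (𝓝 c) ∧
        (∀ r : ℕ, 1 ≤ r → c ≤ (alpha (multi S (fun P => r * τ P)) : ℝ) / r) ∧
        ∀ m : ℕ, 1 ≤ m →
          ((alpha (multi S (fun P => m * τ P)) : ℝ) + h - 1) / ((m : ℝ) + h - 1) ≤ c := by
    intro h S τ hh hS hSτ
    exact ⟨fun r => Pool.Agent.H35.DM.alpha_ineq (J := symbolicPower) hS hh
      (fun P hP => hfam h P (hSτ P hP).1) τ (fun P hP => (hSτ P hP).2) r,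
      Pool.Agent.H35.DM.demailly_real (J := symbolicPower) hS hh
        (fun P hP => hfam h P (hSτ P hP).1) τ (fun P hP => (hSτ P hP).2)⟩
  refine ⟨?_, hset, ?_, ?_⟩
  · intro h I hh hrad hhom hI0 hIX hht
    have hfin := Ideal.finite_minimalPrimes_of_isNoetherianRing _ I
    have hne : I.minimalPrimes.Nonempty := by
      rw [← Set.nonempty_coe_sort]
      apply Ideal.nonempty_minimalPrimes
      rintro rfl
      obtain ⟨i, hi⟩ := hIX
      exact hi Submodule.mem_top
    have h1 : ∀ m : ℕ, symbolicPower I m = multi hfin.toFinset (fun _ => m * 1) := by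
      intro m
      rw [symbolicPower_radical hrad]
      unfold multi
      simp only [Set.Finite.mem_toFinset, mul_one]
      refine iInf_congr fun P => iInf_congr fun hP => ?_
      have hPp : P.IsPrime := hP.1.1
      rw [symbolicPower_prime]
    have h2 := (hset h hfin.toFinset (fun _ => 1) hh (by
      obtain ⟨P, hP⟩ := hne
      exact ⟨P, (Set.Finite.mem_toFinset _).2 hP⟩) (by
      intro P hP
      rw [Set.Finite.mem_toFinset] at hP
      refine ⟨⟨hP.1.1, Pool.Agent.H35.DM.minimalPrimes_hom hhom hP, ?_,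
        Pool.Agent.H35.DM.minimalPrimes_X hhom hrad hIX hP, hht P hP⟩, le_rfl⟩
      rintro rfl
      exact hI0 (le_bot_iff.1 hP.1.2))).2
    simp only [h1]
    exact h2
  · intro P hP hhom hX
    exact Pool.Agent.H35.DM.height_le hhom hX
  · intro Z hZ
    have h1 : ∀ p ∈ Z, Pool.Agent.H35.DM.Fam N (fun m => pointIdeal p ^ m) := by
      intro p _
      have h2 : pointIdeal p = Pool.Agent.H737R3.linI p.rep :=
        Pool.Agent.H737R3.ptIdeal_eq p
      rw [h2]
      exact Pool.Agent.H35.DM.point_fam p.rep p.rep_nonzero hN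
    have h2 := Pool.Agent.H35.DM.demailly_real (J := fun p m => pointIdeal p ^ m) hZ hN h1
      (fun _ => 1) (fun _ _ => le_rfl)
    have h3 : ∀ m : ℕ, (⨅ p ∈ Z, pointIdeal p ^ m) =
        Pool.Agent.H35.DM.inter Z (fun p m => pointIdeal p ^ m) (fun _ => m * 1) := by
      intro m
      unfold Pool.Agent.H35.DM.inter
      simp only [mul_one]
    simp only [h3]
    exact h2

end Pool.Agent.Results.MP_794b84_ag.BigHeight
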